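import Pool.Agent.H5.FCX.CNC
import Pool.Agent.H5.FCX.TOT
import Pool.Agent.H5.FCX.NEW
import Pool.Agent.H5.FCX.BRL
import Pool.Agent.H49.FCX.PRE
import Pool.Agent.H71.FCX.NUM
import Pool.Agent.H71.FCX.ONEC
import Pool.Agent.H71.FCX.TREE
import Pool.Agent.H71.FCX.DAP
import Pool.Agent.H1.FCX.JAY
import Pool.Agent.H1.FCX.POW
import Pool.Agent.H1.FCX.CRM
import Pool.Agent.H1.FCX.ONEP
import Pool.Agent.H67.FCX.LEAF
import Pool.Agent.H11.FCX.CLM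
import Pool.Agent.H78.FCX.G1
import Pool.Agent.H78.FCX.GOOD
import Pool.Agent.H81.FCX.ALL
import Pool.Agent.H81.FCX.ARRP
import Pool.Agent.H81.FCX.MAIN
import Pool.Agent.H81.FCX.G2
import Pool.Agent.H4.FCX.FLOW
import Pool.Agent.H4.FCX.APP
import Pool.Agent.H89.FCX.FIN
import Pool.Agent.H89.FCX.YNG

/-! The factorisation constant of the augmentation ideal of `ℓ¹(F)` (MP_2822c4_an): assembly. -/

set_option autoImplicit false

namespace Pool.Agent.H81.FX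

theorem all_main : T_MAIN := by
  have hWRD : T_WRD := Pool.Agent.H5.FCX.pf_WRD
  have hPRE : T_PRE := Pool.Agent.H49.FCX.pf_PRE hWRD
  have hCNC : T_CNC := Pool.Agent.H5.FCX.pf_CNC hWRD
  have hTOT : T_TOT := Pool.Agent.H5.FCX.pf_TOT
  have hCVX : T_CVX := Pool.Agent.H5.FCX.pf_CVX
  have hREC : T_REC := Pool.Agent.H5.FCX.pf_REC hWRD hPRE
  have hNEW : T_NEW := Pool.Agent.H5.FCX.pf_NEW hWRD hPRE
  have hBRL : T_BRL := Pool.Agent.H5.FCX.pf_BRL hWRD hPRE hTOT hREC hNEW hCVX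
  have hNUM : T_NUM := Pool.Agent.H71.FCX.pf_NUM
  have hONEC : T_ONEC := Pool.Agent.H71.FCX.pf_ONEC hBRL hNUM
  have hALL : T_ALL := Pool.Agent.H81.FCX.pf_ALL hONEC Pool.Agent.H1.FCX.pf_POW
    Pool.Agent.H1.FCX.pf_JAY
  have hONEP : T_ONEP := Pool.Agent.H1.FCX.pf_ONEP hALL
  have hARRP : T_ARRP := Pool.Agent.H81.FCX.pf_ARRP hONEP hPRE
  have hLEAF : T_LEAF := Pool.Agent.H67.FCX.pf_LEAF hCNC
  have hTREE : T_TREE := Pool.Agent.H71.FCX.pf_TREE hWRD hPRE hLEAF hONEP hARRP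
  have hCLM : T_CLM := Pool.Agent.H11.FCX.pf_CLM
  have hG1 : T_G1 := Pool.Agent.H78.FCX.pf_G1 hCLM
  have hG2 : T_G2 := Pool.Agent.H81.FCX.pf_G2 hTREE hCLM
  have hGOOD : T_GOOD := Pool.Agent.H78.FCX.pf_GOOD hG1 hG2
  have hCRM : T_CRM := Pool.Agent.H1.FCX.pf_CRM hWRD hCNC
  have hAPP : T_APP := Pool.Agent.H4.FCX.pf_APP Pool.Agent.H4.FCX.pf_FLOW hCRM hWRD
  have hFIN : T_FIN := Pool.Agent.H89.FCX.pf_FIN hGOOD hAPP
  exact Pool.Agent.H81.FCX.pf_MAIN hFIN Pool.Agent.H89.FCX.pf_YNG Pool.Agent.H71.FCX.pf_DAP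

end Pool.Agent.H81.FX
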