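import Mathlib

/-! The factorisation constant of the augmentation ideal of `ℓ¹(F)`, `F` free (MP_2822c4_an):
definitions. -/

set_option autoImplicit false

namespace Pool.Agent.H81.FX

open Finset

/-- Letters. -/
abbrev Lt (ι : Type) := ι × Bool

variable {ι : Type}

/-- The inverse letter. -/
def iv (s : Lt ι) : Lt ι := (s.1, !s.2)

/-- The letter as an element of the free group. -/
def el (s : Lt ι) : FreeGroup ι := FreeGroup.mk [s]

/-- The product of the first `n` letters of `t`. -/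
def pre (t : List (Lt ι)) (n : ℕ) : FreeGroup ι := FreeGroup.mk (t.take n)

variable [DecidableEq ι]

/-- The reduced word of `x` does not end with the inverse of `s`, that is `|x s| = |x| + 1`. -/
def Up (x : FreeGroup ι) (s : Lt ι) : Prop := x.toWord.getLast? ≠ some (iv s)

instance (x : FreeGroup ι) (s : Lt ι) : Decidable (Up x s) := by unfold Up; infer_instance

/-- The reduced word of `x` ends with `s`. -/
def Ends (x : FreeGroup ι) (s : Lt ι) : Prop := x.toWord.getLast? = some s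

instance (x : FreeGroup ι) (s : Lt ι) : Decidable (Ends x s) := by unfold Ends; infer_instance

/-- `h` cancels `r` completely. -/
def Canc (h r : FreeGroup ι) : Prop := (h * r).norm + r.norm = h.norm

instance (h r : FreeGroup ι) : Decidable (Canc h r) := by unfold Canc; infer_instance

/-- Walkers with weights `k` all follow the word `t`. This is the mass of the walkers which leave `x`
with a step in the direction `s`: the walker `v` is at `v * pre t n` at the time `n`. -/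
noncomputable def G (t : List (Lt ι)) (k : FreeGroup ι → ℝ) (x : FreeGroup ι) (s : Lt ι) : ℝ :=
  ∑ n ∈ range t.length, if t[n]? = some s then k (x * (pre t n)⁻¹) else 0

/-- The mass of all walkers which leave `x` with a step away from the identity. -/
noncomputable def Tot (t : List (Lt ι)) (k : FreeGroup ι → ℝ) (x : FreeGroup ι) : ℝ :=
  ∑ n ∈ range t.length, if ∀ s, t[n]? = some s → Up x s then k (x * (pre t n)⁻¹) else 0

/-- The mass of those walkers among them for which this is the first step away from the identity. -/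
noncomputable def New (t : List (Lt ι)) (k : FreeGroup ι → ℝ) (x : FreeGroup ι) : ℝ :=
  ∑ n ∈ range t.length, if (∀ s, t[n]? = some s → Up x s) ∧
    (n = 0 ∨ ∀ s, t[n - 1]? = some s → ¬ Ends x s) then k (x * (pre t n)⁻¹) else 0

/-- As `G`, with weights `w n` at the times `n`. -/
noncomputable def Fw (t : List (Lt ι)) (w : ℕ → ℝ) (β : FreeGroup ι → ℝ) (x : FreeGroup ι)
    (s : Lt ι) : ℝ :=
  ∑ n ∈ range t.length, if t[n]? = some s then w n * β (x * (pre t n)⁻¹) else 0

/-- As `Fw`, the walkers which arrive at `x` with a step `s`. -/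
noncomputable def Fa (t : List (Lt ι)) (w : ℕ → ℝ) (β : FreeGroup ι → ℝ) (x : FreeGroup ι)
    (s : Lt ι) : ℝ :=
  ∑ n ∈ range t.length, if t[n]? = some s then w n * β (x * (pre t (n + 1))⁻¹) else 0

/-- As `Fw`, every walker counted with at most `1`. -/
noncomputable def Yw (t : List (Lt ι)) (w : ℕ → ℝ) (κ : FreeGroup ι → ℝ) (x : FreeGroup ι)
    (s : Lt ι) : ℝ :=
  ∑ n ∈ range t.length, if t[n]? = some s then min 1 (w n * κ (x * (pre t n)⁻¹)) else 0

/-- The total weight at the times with the letter `s`. -/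
noncomputable def Wt (t : List (Lt ι)) (w : ℕ → ℝ) (s : Lt ι) : ℝ :=
  ∑ n ∈ range t.length, if t[n]? = some s then w n else 0

/-- The elements cancelled completely by more than `τ` of the mass `β` (supported in `S`). -/
def Tree (S : Finset (FreeGroup ι)) (β : FreeGroup ι → ℝ) (τ : ℝ) : Set (FreeGroup ι) :=
  {r | τ < ∑ h ∈ S, if Canc h r then β h else 0}

/-- `β` is a nonnegative function supported in `S` with sum at most `M`. -/
def Mass {α : Type} (S : Finset α) (β : α → ℝ) (M : ℝ) : Prop :=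
  (∀ h, 0 ≤ β h) ∧ (∀ h, h ∉ S → β h = 0) ∧ ∑ h ∈ S, β h ≤ M

/-- The elements with `ε ≤ ‖b i g‖`. -/
def Hv {m : ℕ} (S : Finset (FreeGroup ι)) (b : Fin m → FreeGroup ι → ℂ) (ε : ℝ) (i : Fin m) :
    Set (FreeGroup ι) := {g | g ∈ S ∧ ε ≤ ‖b i g‖}

open Classical in
/-- The cloud of the identity. -/
noncomputable def Cl {m : ℕ} (S : Finset (FreeGroup ι)) (b : Fin m → FreeGroup ι → ℂ) (ε : ℝ)
    (ξ : FreeGroup ι) : ℝ :=
  ∑ i, ∑ g ∈ S, if g ∈ Hv S b ε i then ‖b i (ξ * g)‖ else 0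

/-- Conditions on the generator `k`: the first two. -/
def Good1 {m : ℕ} (S : Finset (FreeGroup ι)) (b : Fin m → FreeGroup ι → ℂ) (ε ε₁ : ℝ)
    (k : ι) : Prop :=
  (∀ i, ∀ g ∈ Hv S b ε i, FreeGroup.of k * g ∉ Hv S b ε i) ∧
  ∀ Ξ : Finset (FreeGroup ι), ∑ ξ ∈ Ξ, (if Ends ξ (k, true) ∨ Ends ξ (k, false) then
    Cl S b ε ξ else 0) ≤ ε₁

/-- Conditions on the letter `s`: no weights on the edges with label `s` of the tree of `b i` give
a function which overlaps the cloud. -/
def Good2 {m : ℕ} (S : Finset (FreeGroup ι)) (b : Fin m → FreeGroup ι → ℂ) (ε τ ε₂ : ℝ)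
    (s : Lt ι) : Prop :=
  ∀ i, ∀ (R : Finset (FreeGroup ι)) (w : FreeGroup ι → ℝ),
    (∀ r ∈ R, 0 ≤ w r ∧ Up r s ∧ r * el s ∈ Tree S (fun h => ‖b i h‖) τ) → ∑ r ∈ R, w r ≤ 10 →
    ∀ Ξ : Finset (FreeGroup ι),
      ∑ ξ ∈ Ξ, min (10 * Cl S b ε ξ) (∑ r ∈ R, w r * ‖b i (ξ * r⁻¹)‖) ≤ ε₂ ∧
      ∑ ξ ∈ Ξ, min (10 * Cl S b ε ξ) (∑ r ∈ R, w r * ‖b i (ξ * (r * el s)⁻¹)‖) ≤ ε₂

/-- The generator `k` is good. -/
def Good {m : ℕ} (S : Finset (FreeGroup ι)) (b : Fin m → FreeGroup ι → ℂ) (ε τ ε₁ ε₂ : ℝ)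
    (k : ι) : Prop :=
  Good1 S b ε ε₁ k ∧ Good2 S b ε τ ε₂ (k, true) ∧ Good2 S b ε τ ε₂ (k, false)

/-- `b 0, …, b (m-1)` are supported in `S`, have sum zero and norm at most `1`. -/
def Bs {m : ℕ} (S : Finset (FreeGroup ι)) (b : Fin m → FreeGroup ι → ℂ) : Prop :=
  ∀ i, (∀ g, g ∉ S → b i g = 0) ∧ ∑ g ∈ S, b i g = 0 ∧ ∑ g ∈ S, ‖b i g‖ ≤ 1

/-- `δ_e - δ_a`. -/
noncomputable def dl (a : FreeGroup ι) (x : FreeGroup ι) : ℂ :=
  (if x = 1 then 1 else 0) - (if x = a then 1 else 0)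

/-- The finite sums `∑ b_i * c_i`. -/
noncomputable def cv {m : ℕ} (Z : Finset (FreeGroup ι)) (b c : Fin m → FreeGroup ι → ℂ)
    (x : FreeGroup ι) : ℂ := ∑ i, ∑ z ∈ Z, b i (x * z⁻¹) * c i z

end Pool.Agent.H81.FX
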