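import Pool.Agent.H81.FX.Defs

/-! The factorisation constant of the augmentation ideal of `ℓ¹(F)` (MP_2822c4_an): targets. -/

set_option autoImplicit false

namespace Pool.Agent.H81.FX

open Finset Filter Topology

/-- Letters and last letters. -/
def T_WRD : Prop := ∀ (ι : Type) [DecidableEq ι] (x : FreeGroup ι) (s s' : Lt ι),
  (Up x s → (x * el s).toWord = x.toWord ++ [s]) ∧
  (¬ Up x s → (x * el s).toWord = x.toWord.dropLast) ∧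
  (¬ Up x s → Up (x * el s) (iv s)) ∧
  (Up x s → s' ≠ iv s → Up (x * el s) s') ∧
  (Up x s → Ends (x * el s) s) ∧
  (Ends x s → Up (x * (el s)⁻¹) s) ∧
  (Up x s → (x * el s).norm = x.norm + 1) ∧
  (¬ Up x s → (x * el s).norm + 1 = x.norm) ∧ (el s)⁻¹ = el (iv s)

/-- Prefixes of a reduced word. -/
def T_PRE : Prop := ∀ (ι : Type) [DecidableEq ι] (t : List (Lt ι)), FreeGroup.IsReduced t →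
  (∀ n s, t[n]? = some s → pre t (n + 1) = pre t n * el s) ∧
  (∀ n s s', t[n]? = some s → t[n + 1]? = some s' → s' ≠ iv s) ∧
  (∀ n, (pre t n).toWord = t.take n) ∧
  (∀ n s, t[n]? = some s → Up (pre t n) s)

/-- Cancellation. -/
def T_CNC : Prop := ∀ (ι : Type) [DecidableEq ι] (h z r r' : FreeGroup ι) (s : Lt ι),
  (¬ Ends z s → Ends (h * z) s → Canc h (z * el (iv s))) ∧
  (Ends z s → ¬ Ends (h * z) s → Canc h z) ∧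
  (Up r s → Canc h (r * el s) → Canc h r) ∧
  (Canc h r → Canc h r' → r.norm ≤ r'.norm → r.toWord <+: r'.toWord)

/-- The total mass is the sum over the letters. -/
def T_TOT : Prop := ∀ (ι : Type) [DecidableEq ι] (t : List (Lt ι)) (k : FreeGroup ι → ℝ)
  (x : FreeGroup ι) (L : Finset (Lt ι)), (∀ s ∈ t, s ∈ L) →
  Tot t k x = ∑ s ∈ L, if Up x s then G t k x s else 0

/-- Recursion for the total masses. -/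
def T_REC : Prop := ∀ (ι : Type) [DecidableEq ι] (t : List (Lt ι)), FreeGroup.IsReduced t →
  ∀ (k : FreeGroup ι → ℝ), (∀ v, 0 ≤ k v) →
  (∀ (x : FreeGroup ι) (s : Lt ι), Up x s → Tot t k (x * el s) ≤ G t k x s + New t k (x * el s)) ∧
  Tot t k 1 ≤ New t k 1

/-- Every walker turns away from the identity at most once. -/
def T_NEW : Prop := ∀ (ι : Type) [DecidableEq ι] (t : List (Lt ι)), FreeGroup.IsReduced t →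
  ∀ (Z : Finset (FreeGroup ι)) (k : FreeGroup ι → ℝ), (∀ v, 0 ≤ k v) → (∀ v, v ∉ Z → k v = 0) →
  ∀ X : Finset (FreeGroup ι), ∑ x ∈ X, New t k x ≤ ∑ v ∈ Z, k v

/-- A convexity inequality. -/
def T_CVX : Prop := ∀ (α : Type) (L A : Finset α) (g : α → ℝ) (q : ℝ), 0 < q →
  (∀ s ∈ L, 0 ≤ g s) → A ⊆ L → (∀ s ∈ A, q ≤ g s) →
  (A.Nonempty → ∃ j ∈ L, j ∉ A ∧ q ≤ g j) →
  q * A.card + ∑ s ∈ L, max (g s - q) 0 ≤ max (∑ s ∈ L, g s - q) 0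

/-- The branching lemma: the number of groups of walkers of mass at least `q` which leave a vertex
away from the identity, but not in the direction of the largest group, is at most the total mass
divided by `q`. -/
def T_BRL : Prop := ∀ (ι : Type) [DecidableEq ι] (t : List (Lt ι)), FreeGroup.IsReduced t →
  ∀ (Z : Finset (FreeGroup ι)) (k : FreeGroup ι → ℝ), (∀ v, 0 ≤ k v) → (∀ v, v ∉ Z → k v = 0) →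
  ∀ J : FreeGroup ι → Lt ι,
  (∀ x s, Up x s → 0 < G t k x s → Up x (J x) ∧ G t k x s ≤ G t k x (J x)) →
  ∀ (q : ℝ), 0 < q → ∀ A : Finset (FreeGroup ι × Lt ι),
  (∀ p ∈ A, Up p.1 p.2 ∧ p.2 ≠ J p.1 ∧ q ≤ G t k p.1 p.2) → q * A.card ≤ ∑ v ∈ Z, k v

/-- The numerical lemma. -/
def T_NUM : Prop := ∀ κ σ k₀ : ℝ, 0 < κ → 0 < σ → 0 < k₀ → ∃ Λ : ℕ → ℝ, (∀ N, 0 ≤ Λ N) ∧
  Tendsto (fun N : ℕ => Λ N / N) atTop (𝓝 0) ∧ ∀ N : ℕ, 1 ≤ N →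
  ∀ (α : Type) (A : Finset α) (g y : α → ℝ) (K : ℝ), 0 ≤ K → (∀ p ∈ A, k₀ ≤ g p) →
  (∀ q, 0 < q → ∀ A' ⊆ A, (∀ p ∈ A', q ≤ g p) → q * A'.card ≤ K) →
  (∀ p ∈ A, y p ≤ σ * g p) → (∀ p ∈ A, ∀ l : ℝ, 0 < l → y p ≤ l * g p + κ * N / l ^ 2) →
  ∑ p ∈ A, y p ≤ Λ N * K

/-- One class of vertices. -/
def T_ONEC : Prop := ∀ κ k₀ : ℝ, 0 < κ → 0 < k₀ → ∃ Λ : ℕ → ℝ, (∀ N, 0 ≤ Λ N) ∧
  Tendsto (fun N : ℕ => Λ N / N) atTop (𝓝 0) ∧ ∀ N : ℕ, 1 ≤ N →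
  ∀ (ι : Type) [DecidableEq ι] (t : List (Lt ι)), FreeGroup.IsReduced t →
  ∀ (w : ℕ → ℝ), (∀ n < t.length, 0 ≤ w n ∧ w n ≤ κ) → ∑ n ∈ range t.length, w n ≤ κ * N →
  ∀ (Z : Finset (FreeGroup ι)) (k : FreeGroup ι → ℝ), (∀ v, k v = 0 ∨ k₀ ≤ k v) →
  (∀ v, v ∉ Z → k v = 0) → ∀ J : FreeGroup ι → Lt ι,
  (∀ x s, Up x s → 0 < G t k x s → Up x (J x) ∧ G t k x s ≤ G t k x (J x)) →
  ∀ A : Finset (FreeGroup ι × Lt ι), (∀ p ∈ A, Up p.1 p.2 ∧ p.2 ≠ J p.1) →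
  ∑ p ∈ A, Yw t w (fun v => k v ^ 2) p.1 p.2 ≤ Λ N * ∑ v ∈ Z, k v

/-- Different powers of two. -/
def T_POW : Prop := ∀ (C : Finset ℤ) (M : ℝ), (∀ c ∈ C, (2 : ℝ) ^ (-c) ≤ M) → 0 ≤ M →
  ∑ c ∈ C, (2 : ℝ) ^ (-c) ≤ 2 * M

/-- Existence of the direction of the largest group. -/
def T_JAY : Prop := ∀ (ι : Type) [DecidableEq ι] (t : List (Lt ι)), t ≠ [] →
  ∀ (k : FreeGroup ι → ℝ), (∀ v, 0 ≤ k v) → ∃ J : FreeGroup ι → Lt ι,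
  ∀ x s, Up x s → 0 < G t k x s → Up x (J x) ∧ G t k x s ≤ G t k x (J x)

/-- All classes: the main inequality for walkers. -/
def T_ALL : Prop := ∀ κ θ : ℝ, 0 < κ → 0 < θ → ∃ Λ : ℕ → ℝ,
  Tendsto (fun N : ℕ => Λ N / N) atTop (𝓝 0) ∧ ∀ N : ℕ, 1 ≤ N →
  ∀ (ι : Type) [DecidableEq ι] (t : List (Lt ι)), FreeGroup.IsReduced t →
  ∀ (w : ℕ → ℝ), (∀ n < t.length, 0 ≤ w n) → ∀ (𝒥 : Finset (Lt ι)), 𝒥.card ≤ N →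
  (∀ s ∈ 𝒥, Wt t w s ≤ κ) → (∀ n s, t[n]? = some s → s ∉ 𝒥 → w n = 0) →
  ∀ (S : Finset (FreeGroup ι)) (β : FreeGroup ι → ℝ), Mass S β 1 →
  ∀ (X : Finset (FreeGroup ι)) (V : FreeGroup ι → ℝ), (∀ x ∈ X, 0 ≤ V x) →
  ∑ s ∈ 𝒥, ∑ x ∈ X, min (V x) (Fw t w β x s) ≤ (2 + κ * θ * N) * ∑ x ∈ X, V x + Λ N

/-- One word: only boundedly many letters have weights whose walkers overlap `V`. -/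
def T_ONEP : Prop := ∀ κ V₀ δ₂ : ℝ, 0 < κ → 0 < V₀ → 0 < δ₂ → ∃ B : ℕ,
  ∀ (ι : Type) [DecidableEq ι] (t : List (Lt ι)), FreeGroup.IsReduced t →
  ∀ (S : Finset (FreeGroup ι)) (β : FreeGroup ι → ℝ), Mass S β 1 →
  ∀ (X : Finset (FreeGroup ι)) (V : FreeGroup ι → ℝ), Mass X V V₀ →
  ∀ (𝒥 : Finset (Lt ι)) (w : Lt ι → ℕ → ℝ), (∀ s ∈ 𝒥, ∀ n < t.length, 0 ≤ w s n) →
  (∀ s ∈ 𝒥, Wt t (w s) s ≤ κ) →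
  (∀ s ∈ 𝒥, δ₂ ≤ ∑ x ∈ X, min (V x) (Fw t (w s) β x s)) → 𝒥.card ≤ B

/-- The same for the walkers which arrive. -/
def T_ARRP : Prop := ∀ κ V₀ δ₂ : ℝ, 0 < κ → 0 < V₀ → 0 < δ₂ → ∃ B : ℕ,
  ∀ (ι : Type) [DecidableEq ι] (t : List (Lt ι)), FreeGroup.IsReduced t →
  ∀ (S : Finset (FreeGroup ι)) (β : FreeGroup ι → ℝ), Mass S β 1 →
  ∀ (X : Finset (FreeGroup ι)) (V : FreeGroup ι → ℝ), Mass X V V₀ →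
  ∀ (𝒥 : Finset (Lt ι)) (w : Lt ι → ℕ → ℝ), (∀ s ∈ 𝒥, ∀ n < t.length, 0 ≤ w s n) →
  (∀ s ∈ 𝒥, Wt t (w s) s ≤ κ) →
  (∀ s ∈ 𝒥, δ₂ ≤ ∑ x ∈ X, min (V x) (Fa t (w s) β x s)) → 𝒥.card ≤ B

/-- A finite part of the tree lies below few leaves. -/
def T_LEAF : Prop := ∀ (ι : Type) [DecidableEq ι] (S : Finset (FreeGroup ι))
  (β : FreeGroup ι → ℝ), Mass S β 1 → ∀ τ : ℝ, 0 < τ → ∀ Q : Finset (FreeGroup ι),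
  (∀ r ∈ Q, r ∈ Tree S β τ) → ∃ P : Finset (FreeGroup ι), P ⊆ Q ∧ P.card * τ ≤ 1 ∧
  ∀ r ∈ Q, ∃ l ∈ P, r.toWord <+: l.toWord

/-- All words in the tree. -/
def T_TREE : Prop := ∀ κ V₀ δ₂ τ : ℝ, 0 < κ → 0 < V₀ → 0 < δ₂ → 0 < τ → ∃ B : ℕ,
  ∀ (ι : Type) [DecidableEq ι] (S : Finset (FreeGroup ι)) (β : FreeGroup ι → ℝ), Mass S β 1 →
  ∀ (X : Finset (FreeGroup ι)) (V : FreeGroup ι → ℝ), Mass X V V₀ →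
  ∀ (𝒥 : Finset (Lt ι)) (R : Lt ι → Finset (FreeGroup ι)) (w : Lt ι → FreeGroup ι → ℝ),
  (∀ s ∈ 𝒥, ∀ r ∈ R s, 0 ≤ w s r ∧ Up r s ∧ r * el s ∈ Tree S β τ) →
  (∀ s ∈ 𝒥, ∑ r ∈ R s, w s r ≤ κ) →
  (∀ s ∈ 𝒥, δ₂ ≤ ∑ x ∈ X, min (V x) (∑ r ∈ R s, w s r * β (x * r⁻¹)) ∨
    δ₂ ≤ ∑ x ∈ X, min (V x) (∑ r ∈ R s, w s r * β (x * (r * el s)⁻¹))) → 𝒥.card ≤ B

/-- Total mass of the cloud, number of the heavy elements. -/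
def T_CLM : Prop := ∀ (m : ℕ) (ε : ℝ), 0 < ε → ∀ (ι : Type) [DecidableEq ι]
  (S : Finset (FreeGroup ι)) (b : Fin m → FreeGroup ι → ℂ), Bs S b →
  (∀ Ξ : Finset (FreeGroup ι), ∑ ξ ∈ Ξ, Cl S b ε ξ ≤ m / ε) ∧
  ∀ i, ∀ H : Finset (FreeGroup ι), (∀ g ∈ H, g ∈ Hv S b ε i) → H.card * ε ≤ 1

/-- The first conditions fail for boundedly many generators. -/
def T_G1 : Prop := ∀ (m : ℕ) (ε ε₁ : ℝ), 0 < ε → 0 < ε₁ → ∃ N : ℕ, ∀ (ι : Type) [DecidableEq ι]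
  (S : Finset (FreeGroup ι)) (b : Fin m → FreeGroup ι → ℂ), Bs S b →
  ∀ T : Finset ι, (∀ k ∈ T, ¬ Good1 S b ε ε₁ k) → T.card ≤ N

/-- The last condition fails for boundedly many letters. -/
def T_G2 : Prop := ∀ (m : ℕ) (ε τ ε₂ : ℝ), 0 < ε → 0 < τ → 0 < ε₂ → ∃ N : ℕ,
  ∀ (ι : Type) [DecidableEq ι] (S : Finset (FreeGroup ι)) (b : Fin m → FreeGroup ι → ℂ), Bs S b →
  ∀ T : Finset (Lt ι), (∀ s ∈ T, ¬ Good2 S b ε τ ε₂ s) → T.card ≤ N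

/-- All but boundedly many generators are good. -/
def T_GOOD : Prop := ∀ (m : ℕ) (ε τ ε₁ ε₂ : ℝ), 0 < ε → 0 < τ → 0 < ε₁ → 0 < ε₂ → ∃ N : ℕ,
  ∀ (ι : Type) [DecidableEq ι] (S : Finset (FreeGroup ι)) (b : Fin m → FreeGroup ι → ℂ), Bs S b →
  ∃ T : Finset ι, T.card ≤ N ∧ ∀ k, k ∉ T → Good S b ε τ ε₁ ε₂ k

/-- The abstract flow inequality. -/
def T_FLOW : Prop := ∀ (α β : Type) [DecidableEq α] [DecidableEq β] (H₀ H₁ H₂ : Finset α),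
  Disjoint H₀ H₁ → Disjoint H₀ H₂ → Disjoint H₁ H₂ →
  ∀ (Ξ W : Finset β) (e a : β), e ∈ Ξ → W ⊆ Ξ → a ∈ W → e ∉ W →
  ∀ (f : α → β → ℝ) (C : α → ℝ) (err D₀ D₁ : β → ℝ) (ε ε₁ τ ε₂ : ℝ), 0 ≤ ε → 0 ≤ τ →
  (∀ η ∈ H₀ ∪ H₁ ∪ H₂, ∑ ξ ∈ Ξ, f η ξ = 0 ∧ ∑ ξ ∈ Ξ, |f η ξ| ≤ C η) →
  (∀ ξ ∈ Ξ, (if ξ = e then (1 : ℝ) else 0) - (if ξ = a then 1 else 0) - err ξ =
    ∑ η ∈ H₀ ∪ H₁ ∪ H₂, f η ξ) →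
  (∀ η ∈ H₁ ∪ H₂, |f η e| ≤ ε * C η) → (∀ η ∈ H₀ ∪ H₂, |f η a| ≤ ε * C η) →
  (∀ ξ, 0 ≤ D₀ ξ ∧ 0 ≤ D₁ ξ) →
  (∀ ξ ∈ Ξ, ξ ≠ e → ∑ η ∈ H₀, |f η ξ| ≤ D₀ ξ) →
  (∀ ξ ∈ Ξ, ξ ≠ a → ∑ η ∈ H₁, |f η ξ| ≤ D₁ ξ) →
  ∑ ξ ∈ W, D₀ ξ ≤ ε₁ → ∑ ξ ∈ Ξ \ W, D₁ ξ ≤ ε₁ →
  ∀ HC ⊆ H₂,
  (∀ η ∈ H₂ \ HC, ∑ ξ ∈ W, |f η ξ| ≤ τ * C η ∨ ∑ ξ ∈ Ξ \ W, |f η ξ| ≤ τ * C η) →
  ∑ ξ ∈ Ξ \ W, min (D₀ ξ) (∑ η ∈ HC, |f η ξ|) ≤ ε₂ →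
  ∑ ξ ∈ W, min (D₁ ξ) (∑ η ∈ HC, |f η ξ|) ≤ ε₂ →
  10 ≤ ∑ η ∈ H₀ ∪ H₁ ∪ H₂, C η + 5 * ∑ ξ ∈ Ξ, |err ξ| +
    (12 * ε + 4 * τ) * ∑ η ∈ H₀ ∪ H₁ ∪ H₂, C η + 12 * ε₁ + 4 * ε₂

/-- Crossing hubs lie on the tree. -/
def T_CRM : Prop := ∀ (ι : Type) [DecidableEq ι] (S : Finset (FreeGroup ι))
  (β : FreeGroup ι → ℝ), (∀ h, 0 ≤ β h) → ∀ (τ : ℝ) (z : FreeGroup ι) (s : Lt ι),
  τ < (∑ h ∈ S, if Ends (h * z) s then β h else 0) →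
  τ < (∑ h ∈ S, if Ends (h * z) s then 0 else β h) →
  (¬ Ends z s → Up z (iv s) ∧ z * el (iv s) ∈ Tree S β τ) ∧
  (Ends z s → Up (z * el (iv s)) s ∧ z * el (iv s) * el s ∈ Tree S β τ)

/-- The inequality for good generators. -/
def T_APP : Prop := ∀ (m : ℕ) (ε τ ε₁ ε₂ : ℝ), 0 < ε → 0 < τ → 0 < ε₁ → 0 < ε₂ →
  ∀ (ι : Type) [DecidableEq ι] (S : Finset (FreeGroup ι)) (b : Fin m → FreeGroup ι → ℂ), Bs S b →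
  ∀ k, Good S b ε τ ε₁ ε₂ k → ∀ (c : Fin m → FreeGroup ι → ℂ) (Z Ξ : Finset (FreeGroup ι)),
  (∀ s ∈ S, ∀ z ∈ Z, s * z ∈ Ξ) → 1 ∈ Ξ → FreeGroup.of k ∈ Ξ →
  ∑ i, ∑ z ∈ Z, ‖c i z‖ ≤ 10 →
  10 ≤ ∑ i, ∑ z ∈ Z, ‖c i z‖ + 5 * ∑ ξ ∈ Ξ, ‖dl (FreeGroup.of k) ξ - cv Z b c ξ‖ +
    10 * (12 * ε + 4 * τ) + 120 * ε₁ + 8 * m * ε₂

/-- The theorem for finite supports. -/
def T_FIN : Prop := ∀ (m : ℕ) (δ : ℝ), 0 < δ → ∃ N : ℕ, ∀ (ι : Type) [DecidableEq ι]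
  (S : Finset (FreeGroup ι)) (b : Fin m → FreeGroup ι → ℂ), Bs S b →
  ∃ T : Finset ι, T.card ≤ N ∧ ∀ k, k ∉ T →
  ∀ (c : Fin m → FreeGroup ι → ℂ) (Z Ξ : Finset (FreeGroup ι)),
  (∀ s ∈ S, ∀ z ∈ Z, s * z ∈ Ξ) → 1 ∈ Ξ → FreeGroup.of k ∈ Ξ →
  10 - δ ≤ ∑ i, ∑ z ∈ Z, ‖c i z‖ + 5 * ∑ ξ ∈ Ξ, ‖dl (FreeGroup.of k) ξ - cv Z b c ξ‖

/-- Convolution in `ℓ¹`. -/
def T_YNG : Prop := ∀ (ι : Type) (b c : FreeGroup ι → ℂ), Summable b → Summable c →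
  (Summable fun x => ‖∑' y, b y * c (y⁻¹ * x)‖) ∧
  (∀ x, Summable fun y => b y * c (y⁻¹ * x)) ∧
  ∑' x, ‖∑' y, b y * c (y⁻¹ * x)‖ ≤ (∑' g, ‖b g‖) * ∑' g, ‖c g‖

/-- Approximation in the augmentation ideal. -/
def T_DAP : Prop := ∀ (ι : Type) (b : FreeGroup ι → ℂ), Summable b → ∑' g, b g = 0 →
  ∑' g, ‖b g‖ ≤ 1 → ∀ ε : ℝ, 0 < ε → ∃ (S : Finset (FreeGroup ι)) (b' : FreeGroup ι → ℂ),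
  (∀ g, g ∉ S → b' g = 0) ∧ ∑ g ∈ S, b' g = 0 ∧ ∑ g ∈ S, ‖b' g‖ ≤ 1 ∧ ∑' g, ‖b g - b' g‖ ≤ ε

/-- The theorem. -/
def T_MAIN : Prop := ∀ (m : ℕ) (δ : ℝ), 0 < δ → ∃ N : ℕ, ∀ (ι : Type)
  (b : Fin m → FreeGroup ι → ℂ), (∀ i, Summable (b i)) → (∀ i, ∑' g, b i g = 0) →
  ∃ T : Finset ι, T.card ≤ N ∧ ∀ k, k ∉ T → ∀ c : Fin m → FreeGroup ι → ℂ,
  (∀ i, Summable (c i)) →
  10 - δ ≤ ∑ i, (∑' g, ‖b i g‖) * (∑' g, ‖c i g‖) +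
    5 * ∑' x, ‖(Set.indicator {1} 1 x - Set.indicator {FreeGroup.of k} 1 x : ℂ) -
      ∑ i, ∑' y, b i y * c i (y⁻¹ * x)‖

end Pool.Agent.H81.FX
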